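import Mathlib

set_option autoImplicit false

/-!
Path odd-covers, part 1: linear forests (acyclic graphs with at most two neighbours at each vertex).
-/

namespace Pool.Agent.U466.OC

open SimpleGraph

variable {V : Type*}

/-- Linear forests. -/
structure LF (H : SimpleGraph V) : Prop where
  ac : H.IsAcyclic
  d2 : ∀ v a b c, H.Adj v a → H.Adj v b → H.Adj v c → a = b ∨ a = c ∨ b = c

/-- At most one neighbour. -/
def End (H : SimpleGraph V) (v : V) : Prop := ∀ a b, H.Adj v a → H.Adj v b → a = b

theorem pre {H : SimpleGraph V} (h : LF H) : ∀ {x b : V} (p : H.Walk x b), p.IsPath →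
    ∀ z, H.Adj x z → z ∉ p.support → End H b → ∀ {c : V} (q : H.Walk x c), q.IsPath →
    z ∉ q.support → c ∈ p.support := by
  intro x b p
  induction p with
  | nil =>
    intro _ z hz _ hb c q _ hzq
    cases q with
    | nil => simp
    | @cons _ y _ hy q' =>
      exfalso
      apply hzq
      rw [hb z y hz hy]
      simp
  | @cons x y b h1 p' ih =>
    intro hp z hz hzp hb c q hq hzq
    cases q with
    | nil => simp
    | @cons _ y2 _ h2 q' =>
      have hy : y = y2 := by
        rcases h.d2 x z y y2 hz h1 h2 with e | e | e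
        · exfalso; apply hzp; rw [e]; simp
        · exfalso; apply hzq; rw [e]; simp
        · exact e
      subst hy
      rw [Walk.cons_isPath_iff] at hp hq
      have := ih hp.1 x h1.symm hp.2 hb q' hq.1 hq.2
      rw [Walk.support_cons]
      exact List.mem_cons_of_mem _ this

theorem pre0 {H : SimpleGraph V} (h : LF H) {a b c : V} (hab : a ≠ b) (ha : End H a)
    (hb : End H b) (p : H.Walk a b) (hp : p.IsPath) (q : H.Walk a c) (hq : q.IsPath) :
    c ∈ p.support := by
  cases p with
  | nil => exact absurd rfl hab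
  | @cons _ y _ h1 p' =>
    cases q with
    | nil => simp
    | @cons _ y2 _ h2 q' =>
      have hy : y = y2 := ha y y2 h1 h2
      subst hy
      rw [Walk.cons_isPath_iff] at hp hq
      rw [Walk.support_cons]
      exact List.mem_cons_of_mem _ (pre h p' hp.1 a h1.symm hp.2 hb q' hq.1 hq.2)

/-- A component of a linear forest has at most two end vertices. -/
theorem three {H : SimpleGraph V} (h : LF H) {a b c : V} (hab : a ≠ b) (hac : a ≠ c) (hbc : b ≠ c)
    (ha : End H a) (hb : End H b) (hc : End H c) (h1 : H.Reachable a b) (h2 : H.Reachable a c) :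
    False := by
  classical
  obtain ⟨p, hp⟩ := h1.exists_isPath
  obtain ⟨q, hq⟩ := h2.exists_isPath
  have hcp := pre0 h hab ha hb p hp q hq
  have hbq := pre0 h hac ha hc q hq p hp
  have heq : q = p.takeUntil c hcp := by
    have := (isAcyclic_iff_subsingleton_path.1 h.ac a c).elim ⟨q, hq⟩ ⟨_, hp.takeUntil hcp⟩
    exact Subtype.mk.inj this
  rw [heq] at hbq
  exact Walk.endpoint_notMem_support_takeUntil hp hcp hbc hbq

theorem leaf {H : SimpleGraph V} [Finite V] (h : H.IsAcyclic) {x a : V} (hxa : H.Adj x a) :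
    ∃ w, w ≠ x ∧ End H w ∧ (∃ b, H.Adj w b) ∧ ∃ p : H.Walk x w, p.IsPath := by
  classical
  have := Fintype.ofFinite V
  let P : ℕ → Prop := fun n => ∃ (w : V) (p : H.Walk x w), p.IsPath ∧ p.length = n
  have hP1 : P 1 := ⟨a, Walk.cons hxa Walk.nil, by simp [hxa.ne], by simp⟩
  have hb : ∀ n, P n → n ≤ Fintype.card V := by
    rintro n ⟨w, p, hp, rfl⟩
    exact hp.length_lt.le
  have h1 : P (Nat.findGreatest P (Fintype.card V)) := Nat.findGreatest_spec (hb 1 hP1) hP1
  have h2 : 1 ≤ Nat.findGreatest P (Fintype.card V) := Nat.le_findGreatest (hb 1 hP1) hP1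
  have h3 : ∀ n, P n → n ≤ Nat.findGreatest P (Fintype.card V) :=
    fun n hn => Nat.le_findGreatest (hb n hn) hn
  obtain ⟨w, p, hp, hl⟩ := h1
  have hnil : ¬ p.Nil := by
    intro hn
    have := Walk.length_eq_zero_iff.2 hn
    omega
  have key : ∀ y, H.Adj w y → y = p.penultimate := by
    intro y hy
    have hys : y ∈ p.support := by
      by_contra hys
      have := h3 (p.length + 1) ⟨y, p.concat hy, hp.concat hys hy, by simp⟩
      omega
    exact h.eq_penultimate_of_adj_end hp hy hys
  refine ⟨w, ?_, ?_, ⟨p.penultimate, (p.adj_penultimate hnil).symm⟩, p, hp⟩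
  · rintro rfl
    exact hnil (Walk.isPath_iff_nil.1 hp)
  · intro a b ha hb
    rw [key a ha, key b hb]

/-- A linear forest with exactly two vertices of degree one is a path. -/
theorem single {H : SimpleGraph V} [Finite V] (h : LF H) {u v : V} (huv : u ≠ v)
    (hu : End H u) (hv : End H v) {a : V} (hua : H.Adj u a)
    (hall : ∀ w, w ≠ u → End H w → (∃ b, H.Adj w b) → w = v) :
    ∃ p : H.Walk u v, p.IsPath ∧ ∀ x y, H.Adj x y → s(x, y) ∈ p.edges := by
  classical
  obtain ⟨w, hw1, hw2, hw3, p, hp⟩ := leaf h.ac hua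
  obtain rfl := hall w hw1 hw2 hw3
  refine ⟨p, hp, ?_⟩
  have hsup : ∀ x y, H.Adj x y → x ∈ p.support := by
    intro x y hxy
    obtain ⟨w', h1, h2, h3, q, hq⟩ := leaf h.ac hxy
    have hr : H.Reachable u x := by
      by_cases hwu : w' = u
      · subst hwu
        exact q.reachable.symm
      · obtain rfl := hall w' hwu h2 h3
        exact p.reachable.trans q.reachable.symm
    obtain ⟨r, hr'⟩ := hr.exists_isPath
    exact pre0 h huv hu hv p hp r hr'
  intro x y hxy
  have hx := hsup x y hxy
  have hy := hsup y x hxy.symm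
  have h1 := hp.takeUntil hx
  have h2 := hp.takeUntil hy
  by_cases hm : x ∈ (p.takeUntil y hy).support
  · have := h.ac.path_concat h1 h2 hxy hm
    apply Walk.edges_takeUntil_subset_edges p hy
    rw [this]
    simp
  · have hm2 : y ∈ (p.takeUntil x hx).support :=
      h.ac.mem_support_of_ne_mem_support_of_adj_of_isPath h1 h2 hxy hm
    have := h.ac.path_concat h2 h1 hxy.symm hm2
    apply Walk.edges_takeUntil_subset_edges p hx
    rw [this]
    simp [Sym2.eq_swap]

end Pool.Agent.U466.OC
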