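import Pool.Agent.U466.OC.A1

set_option autoImplicit false

/-!
Path odd-covers, part 2: linking the components of three linear forests by doubled edges.
-/

namespace Pool.Agent.U466.OC

open SimpleGraph Classical

variable {V : Type*}

/-- Leaves: exactly one neighbour. -/
def Lf (H : SimpleGraph V) (v : V) : Prop := ∃ a, H.Adj v a ∧ ∀ b, H.Adj v b → b = a

theorem Lf.end {H : SimpleGraph V} {v : V} (h : Lf H v) : End H v := by
  obtain ⟨a, _, h2⟩ := h
  intro b c hb hc
  rw [h2 b hb, h2 c hc]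

theorem lf_of_end {H : SimpleGraph V} {v a : V} (h : End H v) (ha : H.Adj v a) : Lf H v :=
  ⟨a, ha, fun b hb => h b a hb ha⟩

theorem sup_edge_adj {H : SimpleGraph V} {u v : V} (huv : u ≠ v) (x y : V) :
    (H ⊔ edge u v).Adj x y ↔ H.Adj x y ∨ (x = u ∧ y = v) ∨ (x = v ∧ y = u) := by
  rw [sup_adj, edge_adj]
  constructor
  · rintro (h | ⟨h, _⟩)
    · exact Or.inl h
    · exact Or.inr h
  · rintro (h | ⟨rfl, rfl⟩ | ⟨rfl, rfl⟩)
    · exact Or.inl h
    · exact Or.inr ⟨Or.inl ⟨rfl, rfl⟩, huv⟩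
    · exact Or.inr ⟨Or.inr ⟨rfl, rfl⟩, huv.symm⟩

/-- Adding an edge between two vertices of degree at most one in different components. -/
theorem LF.add {H : SimpleGraph V} (h : LF H) {u v : V} (hu : End H u) (hv : End H v)
    (huv : ¬ H.Reachable u v) : LF (H ⊔ edge u v) := by
  have hne : u ≠ v := by
    rintro rfl
    exact huv (Reachable.refl _)
  refine ⟨h.ac.sup_edge_of_not_reachable huv, ?_⟩
  intro x a b c ha hb hc
  rw [sup_edge_adj hne] at ha hb hc
  by_cases hxu : x = u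
  · subst hxu
    have key : ∀ d, (H.Adj x d ∨ (x = x ∧ d = v) ∨ (x = v ∧ d = x)) → H.Adj x d ∨ d = v := by
      rintro d (h | ⟨_, h⟩ | ⟨h, _⟩)
      · exact Or.inl h
      · exact Or.inr h
      · exact absurd h hne
    rcases key a ha with ha | ha <;> rcases key b hb with hb | hb <;>
      rcases key c hc with hc | hc
    · exact Or.inl (hu a b ha hb)
    · exact Or.inl (hu a b ha hb)
    · exact Or.inr (Or.inl (hu a c ha hc))
    · exact Or.inr (Or.inr (hb.trans hc.symm))
    · exact Or.inr (Or.inr (hu b c hb hc))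
    · exact Or.inr (Or.inl (ha.trans hc.symm))
    · exact Or.inl (ha.trans hb.symm)
    · exact Or.inl (ha.trans hb.symm)
  · by_cases hxv : x = v
    · subst hxv
      have key : ∀ d, (H.Adj x d ∨ (x = u ∧ d = x) ∨ (x = x ∧ d = u)) → H.Adj x d ∨ d = u := by
        rintro d (h | ⟨h, _⟩ | ⟨_, h⟩)
        · exact Or.inl h
        · exact absurd h hxu
        · exact Or.inr h
      rcases key a ha with ha | ha <;> rcases key b hb with hb | hb <;>
        rcases key c hc with hc | hc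
      · exact Or.inl (hv a b ha hb)
      · exact Or.inl (hv a b ha hb)
      · exact Or.inr (Or.inl (hv a c ha hc))
      · exact Or.inr (Or.inr (hb.trans hc.symm))
      · exact Or.inr (Or.inr (hv b c hb hc))
      · exact Or.inr (Or.inl (ha.trans hc.symm))
      · exact Or.inl (ha.trans hb.symm)
      · exact Or.inl (ha.trans hb.symm)
    · have key : ∀ d, (H.Adj x d ∨ (x = u ∧ d = v) ∨ (x = v ∧ d = u)) → H.Adj x d := by
        rintro d (h | ⟨h, _⟩ | ⟨h, _⟩)
        · exact h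
        · exact absurd h hxu
        · exact absurd h hxv
      exact h.d2 x a b c (key a ha) (key b hb) (key c hc)

theorem lf_add {H : SimpleGraph V} {u v : V} (huv : u ≠ v) (hadj : ¬ H.Adj u v) (hu : Lf H u)
    (hv : Lf H v) (x : V) : Lf (H ⊔ edge u v) x ↔ Lf H x ∧ x ≠ u ∧ x ≠ v := by
  constructor
  · rintro ⟨a, ha, hb⟩
    have hxu : x ≠ u := by
      rintro rfl
      obtain ⟨c, hc, _⟩ := hu
      have h1 := hb c ((sup_edge_adj huv _ _).2 (Or.inl hc))
      have h2 := hb v ((sup_edge_adj huv _ _).2 (Or.inr (Or.inl ⟨rfl, rfl⟩)))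
      rw [h1, ← h2] at hc
      exact hadj hc
    have hxv : x ≠ v := by
      rintro rfl
      obtain ⟨c, hc, _⟩ := hv
      have h1 := hb c ((sup_edge_adj huv _ _).2 (Or.inl hc))
      have h2 := hb u ((sup_edge_adj huv _ _).2 (Or.inr (Or.inr ⟨rfl, rfl⟩)))
      rw [h1, ← h2] at hc
      exact hadj hc.symm
    refine ⟨⟨a, ?_, fun b hb' => hb b ((sup_edge_adj huv _ _).2 (Or.inl hb'))⟩, hxu, hxv⟩
    rcases (sup_edge_adj huv _ _).1 ha with h | ⟨h, _⟩ | ⟨h, _⟩
    · exact h
    · exact absurd h hxu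
    · exact absurd h hxv
  · rintro ⟨⟨a, ha, hb⟩, hxu, hxv⟩
    refine ⟨a, (sup_edge_adj huv _ _).2 (Or.inl ha), ?_⟩
    intro b hb'
    rcases (sup_edge_adj huv _ _).1 hb' with h | ⟨h, _⟩ | ⟨h, _⟩
    · exact hb b h
    · exact absurd h hxu
    · exact absurd h hxv

/-- Number of common leaves. -/
noncomputable def cm [Fintype V] (A B : SimpleGraph V) : ℕ :=
  (Finset.univ.filter (fun v => Lf A v ∧ Lf B v)).card

theorem cm_comm [Fintype V] (A B : SimpleGraph V) : cm A B = cm B A := by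
  unfold cm
  congr 1
  ext v
  simp only [Finset.mem_filter, Finset.mem_univ, true_and]
  exact and_comm

/-- The state of the linking process. -/
structure St [Fintype V] (G A B C : SimpleGraph V) : Prop where
  a : LF A
  b : LF B
  c : LF C
  x : ∀ u v, G.Adj u v ↔ Xor (Xor (A.Adj u v) (B.Adj u v)) (C.Adj u v)
  L : ∀ v, Lf C v ↔ Xor (Lf A v) (Lf B v)

theorem St.rot [Fintype V] {G A B C : SimpleGraph V} (h : St G A B C) : St G B C A := by
  refine ⟨h.b, h.c, h.a, fun u v => ?_, fun v => ?_⟩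
  · rw [h.x u v]
    by_cases h1 : A.Adj u v <;> by_cases h2 : B.Adj u v <;> by_cases h3 : C.Adj u v <;>
      simp [Xor, h1, h2, h3]
  · have := h.L v
    by_cases h1 : Lf A v <;> by_cases h2 : Lf B v <;> by_cases h3 : Lf C v <;>
      simp [Xor, h1, h2, h3] at this ⊢

theorem link [Fintype V] {G A B C : SimpleGraph V} (h : St G A B C) (h3 : 3 ≤ cm A B) :
    ∃ A' B', St G A' B' C ∧ cm A' B' + 2 = cm A B ∧ cm B' C = cm B C ∧ cm A' C = cm A C := by
  obtain ⟨a, b, c, ha, hb, hc, hab, hac, hbc⟩ := Finset.two_lt_card_iff.1 h3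
  simp only [Finset.mem_filter, Finset.mem_univ, true_and] at ha hb hc
  -- a pair which is not joined in `A` and not joined in `B`
  obtain ⟨u, v, hu, hv, huv, hA, hB⟩ : ∃ u v, (Lf A u ∧ Lf B u) ∧ (Lf A v ∧ Lf B v) ∧ u ≠ v ∧
      ¬ A.Reachable u v ∧ ¬ B.Reachable u v := by
    have tA1 := three h.a hab hac hbc ha.1.end hb.1.end hc.1.end
    have tA2 := three h.a hab.symm hbc hac hb.1.end ha.1.end hc.1.end
    have tA3 := three h.a hac.symm hbc.symm hab hc.1.end ha.1.end hb.1.end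
    have tB1 := three h.b hab hac hbc ha.2.end hb.2.end hc.2.end
    have tB2 := three h.b hab.symm hbc hac hb.2.end ha.2.end hc.2.end
    have tB3 := three h.b hac.symm hbc.symm hab hc.2.end ha.2.end hb.2.end
    by_cases pA : A.Reachable a b
    · by_cases pB : B.Reachable a c
      · exact ⟨b, c, hb, hc, hbc, fun r => tA2 pA.symm r, fun r => tB3 pB.symm r.symm⟩
      · exact ⟨a, c, ha, hc, hac, fun r => tA1 pA r, pB⟩
    · by_cases pB : B.Reachable a b
      · by_cases pA2 : A.Reachable a c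
        · exact ⟨b, c, hb, hc, hbc, fun r => tA3 pA2.symm r.symm, fun r => tB2 pB.symm r⟩
        · exact ⟨a, c, ha, hc, hac, pA2, fun r => tB1 pB r⟩
      · exact ⟨a, b, ha, hb, hab, pA, pB⟩
  have nA : ¬ A.Adj u v := fun r => hA r.reachable
  have nB : ¬ B.Adj u v := fun r => hB r.reachable
  have lA := lf_add huv nA hu.1 hv.1
  have lB := lf_add huv nB hu.2 hv.2
  have hCu : ¬ Lf C u := by
    rw [h.L u]; simp [Xor, hu.1, hu.2]
  have hCv : ¬ Lf C v := by
    rw [h.L v]; simp [Xor, hv.1, hv.2]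
  refine ⟨A ⊔ edge u v, B ⊔ edge u v, ⟨h.a.add hu.1.end hv.1.end hA,
    h.b.add hu.2.end hv.2.end hB, h.c, ?_, ?_⟩, ?_, ?_, ?_⟩
  · intro x y
    rw [h.x x y, sup_edge_adj huv, sup_edge_adj huv]
    by_cases hxy : (x = u ∧ y = v) ∨ (x = v ∧ y = u)
    · have n1 : ¬ A.Adj x y := by
        rcases hxy with ⟨rfl, rfl⟩ | ⟨rfl, rfl⟩
        · exact nA
        · exact fun r => nA r.symm
      have n2 : ¬ B.Adj x y := by
        rcases hxy with ⟨rfl, rfl⟩ | ⟨rfl, rfl⟩
        · exact nB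
        · exact fun r => nB r.symm
      by_cases h3 : C.Adj x y <;> simp [Xor, n1, n2, hxy, h3]
    · by_cases h1 : A.Adj x y <;> by_cases h2 : B.Adj x y <;> by_cases h3 : C.Adj x y <;>
        simp [Xor, h1, h2, h3, hxy]
  · intro x
    rw [lA, lB]
    by_cases hxu : x = u
    · subst hxu
      simp [Xor, hCu]
    · by_cases hxv : x = v
      · subst hxv
        simp [Xor, hCv]
      · rw [h.L x]
        simp [hxu, hxv]
  · unfold cm
    have h1 : Finset.univ.filter (fun x => Lf A x ∧ Lf B x) = insert u (insert v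
        (Finset.univ.filter (fun x => Lf (A ⊔ edge u v) x ∧ Lf (B ⊔ edge u v) x))) := by
      ext x
      simp only [Finset.mem_filter, Finset.mem_univ, true_and, Finset.mem_insert, lA, lB]
      by_cases hxu : x = u
      · subst hxu; simp [hu]
      · by_cases hxv : x = v
        · subst hxv; simp [hv]
        · simp [hxu, hxv]
    rw [h1, Finset.card_insert_of_notMem, Finset.card_insert_of_notMem]
    · simp [lA]
    · simp [lA, huv]
  · unfold cm
    congr 1
    ext x
    simp only [Finset.mem_filter, Finset.mem_univ, true_and, lB]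
    constructor
    · rintro ⟨h1, h2⟩; exact ⟨h1.1, h2⟩
    · rintro ⟨h1, h2⟩
      refine ⟨⟨h1, ?_, ?_⟩, h2⟩
      · rintro rfl; exact hCu h2
      · rintro rfl; exact hCv h2
  · unfold cm
    congr 1
    ext x
    simp only [Finset.mem_filter, Finset.mem_univ, true_and, lA]
    constructor
    · rintro ⟨h1, h2⟩; exact ⟨h1.1, h2⟩
    · rintro ⟨h1, h2⟩
      refine ⟨⟨h1, ?_, ?_⟩, h2⟩
      · rintro rfl; exact hCu h2
      · rintro rfl; exact hCv h2

theorem link_all [Fintype V] {G : SimpleGraph V} : ∀ (N : ℕ) {A B C : SimpleGraph V},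
    St G A B C → cm A B + cm B C + cm A C ≤ N → Odd (cm A B) → Odd (cm B C) → Odd (cm A C) →
    ∃ A' B' C', St G A' B' C' ∧ cm A' B' = 1 ∧ cm B' C' = 1 ∧ cm A' C' = 1 := by
  intro N
  induction N using Nat.strong_induction_on with
  | _ N ih =>
    intro A B C h hN h1 h2 h3
    have step : ∀ {A B C : SimpleGraph V}, St G A B C → cm A B + cm B C + cm A C ≤ N →
        Odd (cm A B) → Odd (cm B C) → Odd (cm A C) → 3 ≤ cm A B →
        ∃ A' B' C', St G A' B' C' ∧ cm A' B' = 1 ∧ cm B' C' = 1 ∧ cm A' C' = 1 := by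
      intro A B C h hN h1 h2 h3 h4
      obtain ⟨A', B', h', e1, e2, e3⟩ := link h h4
      refine ih (N - 2) (by omega) h' (by omega) ?_ (by rw [e2]; exact h2) (by rw [e3]; exact h3)
      rw [← e1] at h1
      rw [Nat.odd_iff] at h1 ⊢
      omega
    by_cases c1 : 3 ≤ cm A B
    · exact step h hN h1 h2 h3 c1
    by_cases c2 : 3 ≤ cm B C
    · exact step h.rot (by rw [cm_comm C A, cm_comm B A]; omega) h2 (by rw [cm_comm]; exact h3)
        (by rw [cm_comm]; exact h1) c2
    by_cases c3 : 3 ≤ cm A C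
    · refine step h.rot.rot (by rw [cm_comm C A, cm_comm C B]; omega) (by rw [cm_comm]; exact h3)
        h1 (by rw [cm_comm]; exact h2) (by rw [cm_comm]; exact c3)
    refine ⟨A, B, C, h, ?_, ?_, ?_⟩
    · rw [Nat.odd_iff] at h1; omega
    · rw [Nat.odd_iff] at h2; omega
    · rw [Nat.odd_iff] at h3; omega

/-- A linear forest whose leaves are the common leaves with two others is a single path. -/
theorem fin1 [Fintype V] {A B C : SimpleGraph V} (hA : LF A)
    (hL : ∀ v, Lf A v ↔ Xor (Lf B v) (Lf C v)) (h1 : cm A B = 1) (h2 : cm A C = 1) :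
    ∃ (u v : V) (p : A.Walk u v), u ≠ v ∧ p.IsPath ∧ ∀ x y, A.Adj x y → s(x, y) ∈ p.edges := by
  obtain ⟨u, hu⟩ := Finset.card_eq_one.1 h1
  obtain ⟨v, hv⟩ := Finset.card_eq_one.1 h2
  have hu' : ∀ x, (Lf A x ∧ Lf B x) ↔ x = u := by
    intro x
    have := Finset.ext_iff.1 hu x
    simpa using this
  have hv' : ∀ x, (Lf A x ∧ Lf C x) ↔ x = v := by
    intro x
    have := Finset.ext_iff.1 hv x
    simpa using this
  have au := (hu' u).2 rfl
  have av := (hv' v).2 rfl
  have huv : u ≠ v := by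
    rintro rfl
    have := (hL u).1 au.1
    simp [Xor, au.2, av.2] at this
  obtain ⟨a, ha, _⟩ := au.1
  obtain ⟨p, hp, hp2⟩ := single hA huv au.1.end av.1.end ha (by
    intro w hw hw2 hw3
    obtain ⟨b, hb⟩ := hw3
    have hl := lf_of_end hw2 hb
    rcases (hL w).1 hl with h | h
    · exact absurd ((hu' w).1 ⟨hl, h.1⟩) hw
    · exact (hv' w).1 ⟨hl, h.1⟩)
  exact ⟨u, v, p, huv, hp, hp2⟩

/-- The three paths. -/
theorem paths [Fintype V] {G A B C : SimpleGraph V} (h : St G A B C) (h1 : cm A B = 1)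
    (h2 : cm B C = 1) (h3 : cm A C = 1) :
    ∃ (u w : Fin 3 → V) (P : ∀ i, (⊤ : SimpleGraph V).Walk (u i) (w i)),
      (∀ i, u i ≠ w i) ∧ (∀ i, (P i).IsPath) ∧
      ∀ e : Sym2 V, Odd (Finset.univ.filter (fun i => e ∈ (P i).edges)).card ↔ e ∈ G.edgeSet := by
  obtain ⟨u1, w1, p1, n1, q1, r1⟩ := fin1 h.a h.rot.L h1 h3
  obtain ⟨u2, w2, p2, n2, q2, r2⟩ := fin1 h.b h.rot.rot.L h2 (by rw [cm_comm]; exact h1)
  obtain ⟨u3, w3, p3, n3, q3, r3⟩ := fin1 h.c h.L (by rw [cm_comm]; exact h3)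
    (by rw [cm_comm]; exact h2)
  have hmap : ∀ {H : SimpleGraph V} {u w : V} (p : H.Walk u w), p.IsPath →
      (∀ x y, H.Adj x y → s(x, y) ∈ p.edges) →
      (p.mapLe le_top : (⊤ : SimpleGraph V).Walk u w).IsPath ∧
      ∀ x y, s(x, y) ∈ (p.mapLe le_top : (⊤ : SimpleGraph V).Walk u w).edges ↔ H.Adj x y := by
    intro H u w p hp hr
    refine ⟨(Walk.isPath_mapLe _).2 hp, fun x y => ?_⟩
    rw [Walk.edges_mapLe_eq_edges]
    exact ⟨fun h => p.adj_of_mem_edges h, hr x y⟩
  obtain ⟨s1, t1⟩ := hmap p1 q1 r1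
  obtain ⟨s2, t2⟩ := hmap p2 q2 r2
  obtain ⟨s3, t3⟩ := hmap p3 q3 r3
  refine ⟨![u1, u2, u3], ![w1, w2, w3], fun i => match i with
    | 0 => p1.mapLe le_top
    | 1 => p2.mapLe le_top
    | 2 => p3.mapLe le_top, ?_, ?_, ?_⟩
  · intro i
    fin_cases i
    · exact n1
    · exact n2
    · exact n3
  · intro i
    fin_cases i
    · exact s1
    · exact s2
    · exact s3
  · intro e
    induction e using Sym2.ind with
    | _ x y =>
      rw [mem_edgeSet, h.x x y, Finset.card_filter, Fin.sum_univ_three]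
      have e1 : s(x, y) ∈ p1.edges ↔ A.Adj x y := ⟨fun h => p1.adj_of_mem_edges h, r1 x y⟩
      have e2 : s(x, y) ∈ p2.edges ↔ B.Adj x y := ⟨fun h => p2.adj_of_mem_edges h, r2 x y⟩
      have e3 : s(x, y) ∈ p3.edges ↔ C.Adj x y := ⟨fun h => p3.adj_of_mem_edges h, r3 x y⟩
      by_cases h1 : A.Adj x y <;> by_cases h2 : B.Adj x y <;> by_cases h3 : C.Adj x y <;>
        simp [Xor, h1, h2, h3, e1, e2, e3, Nat.odd_iff]

end Pool.Agent.U466.OC
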