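import Pool.Agent.X76.PM6

set_option autoImplicit false

/-!
Path odd-covers, part 3: a graph with all degrees even and at most four is the union of the cycles
of two permutations.
-/

namespace Pool.Agent.U466.OC

open SimpleGraph Classical Finset

theorem perm_of {V : Type} [Fintype V] (T : V → V → ℕ) (t : V → ℕ) (h1 : ∀ x, ∑ y, T x y = t x)
    (h2 : ∀ y, ∑ x, T x y = t y) (ht : ∀ x, t x ≤ 1) (h0 : ∀ x, T x x = 0) :
    ∃ σ : Equiv.Perm V, (∀ x y, x ≠ y → (σ x = y ↔ T x y = 1)) ∧ ∀ x, t x = 1 → σ x ≠ x := by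
  have hT : ∀ x y, T x y ≤ 1 := by
    intro x y
    have := Finset.single_le_sum (f := T x) (fun i _ => Nat.zero_le _) (mem_univ y)
    rw [h1] at this
    exact this.trans (ht x)
  have hex : ∀ x, t x = 1 → ∃ y, T x y = 1 := by
    intro x hx
    by_contra hcon
    push Not at hcon
    have : ∑ y, T x y = 0 := Finset.sum_eq_zero (fun y _ => by
      have := hT x y
      have := hcon y
      omega)
    rw [h1, hx] at this
    exact one_ne_zero this
  have hcol : ∀ x x' y, T x y = 1 → T x' y = 1 → x = x' := by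
    intro x x' y h h'
    by_contra hne
    have h3 : T x y + T x' y ≤ ∑ z, T z y := by
      rw [← Finset.sum_pair hne (f := fun z => T z y)]
      exact Finset.sum_le_sum_of_subset (subset_univ _)
    rw [h2, h, h'] at h3
    have := ht y
    omega
  have hrow : ∀ x y y', T x y = 1 → T x y' = 1 → y = y' := by
    intro x y y' h h'
    by_contra hne
    have h3 : T x y + T x y' ≤ ∑ z, T x z := by
      rw [← Finset.sum_pair hne (f := fun z => T x z)]
      exact Finset.sum_le_sum_of_subset (subset_univ _)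
    rw [h1, h, h'] at h3
    have := ht x
    omega
  let f : V → V := fun x => if h : ∃ y, T x y = 1 then h.choose else x
  have f1 : ∀ x, (∃ y, T x y = 1) → T x (f x) = 1 := by
    intro x h
    simp only [f, dif_pos h]
    exact h.choose_spec
  have f2 : ∀ x, ¬ (∃ y, T x y = 1) → f x = x := by
    intro x h
    simp only [f, dif_neg h]
  have hinj : Function.Injective f := by
    have aux : ∀ x x', (∃ y, T x y = 1) → ¬ (∃ y, T x' y = 1) → f x ≠ f x' := by
      intro x x' h h' he
      have e1 := f1 x h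
      rw [he, f2 x' h'] at e1
      have e2 := Finset.single_le_sum (f := fun z => T z x') (fun i _ => Nat.zero_le _) (mem_univ x)
      rw [h2, e1] at e2
      have e3 := ht x'
      exact h' (hex x' (by omega))
    intro x x' he
    by_cases h : ∃ y, T x y = 1
    · by_cases h' : ∃ y, T x' y = 1
      · have e1 := f1 x h
        have e2 := f1 x' h'
        rw [← he] at e2
        exact hcol _ _ _ e1 e2
      · exact absurd he (aux x x' h h')
    · by_cases h' : ∃ y, T x' y = 1
      · exact absurd he.symm (aux x' x h' h)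
      · rw [← f2 x h, ← f2 x' h', he]
  refine ⟨Equiv.ofBijective f (Finite.injective_iff_bijective.1 hinj), ?_, ?_⟩
  · intro x y hxy
    show f x = y ↔ T x y = 1
    constructor
    · intro h
      by_cases he : ∃ y, T x y = 1
      · rw [← h]; exact f1 x he
      · rw [f2 x he] at h; exact absurd h hxy
    · intro h
      exact hrow x _ _ (f1 x ⟨y, h⟩) h
  · intro x hx
    show f x ≠ x
    intro he
    have := f1 x (hex x hx)
    rw [he, h0] at this
    exact zero_ne_one this

/-- Two permutations whose cycles form the graph. -/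
theorem two_perm {V : Type} [Fintype V] (G : SimpleGraph V)
    (hev : ∀ v, Even (G.neighborSet v).ncard) (h4 : ∀ v, (G.neighborSet v).ncard ≤ 4) :
    ∃ σ τ : Equiv.Perm V,
      (∀ u v, G.Adj u v ↔ u ≠ v ∧ ((σ u = v ∨ σ v = u) ∨ (τ u = v ∨ τ v = u))) ∧
      (∀ u v, u ≠ v → (σ u = v ∨ σ v = u) → (τ u = v ∨ τ v = u) → False) ∧
      (∀ v, σ v ≠ v → σ (σ v) ≠ v) ∧ (∀ v, τ v ≠ v → τ (τ v) ≠ v) ∧
      (∀ v, (G.neighborSet v).ncard = 4 → σ v ≠ v ∧ τ v ≠ v) := by
  let w : V → V → ℕ := fun x y => if G.Adj x y then 1 else 0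
  have hsum : ∀ x, ∑ y, w x y = 2 * ((G.neighborSet x).ncard / 2) := by
    intro x
    have h1 : ∑ y, w x y = (G.neighborSet x).ncard := by
      simp only [w]
      rw [Finset.sum_boole, Nat.cast_id, ← Set.ncard_coe_finset]
      congr 1
      ext y
      simp
    rw [h1]
    obtain ⟨k, hk⟩ := hev x
    omega
  obtain ⟨o, o1, o2, o3⟩ := Pool.Agent.X76.PM.orientL w
    (by
      intro x y
      simp only [w, G.adj_comm x y])
    (by
      intro x
      simp [w]) (fun x => (G.neighborSet x).ncard / 2) hsum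
  obtain ⟨O, t, p1, p2, p3, p4⟩ := Pool.Agent.X76.PM.circ_split 1 o
    (fun x => (G.neighborSet x).ncard / 2) o2 o3
  have p3' : ∀ x y, O 0 x y + O 1 x y = o x y := by
    intro x y
    rw [← p3, Fin.sum_univ_two]
  have ht : ∀ c x, t c x ≤ 1 := by
    intro c x
    have := (p4 c x).2
    have := h4 x
    omega
  have hw : ∀ x y, w x y ≤ 1 := by
    intro x y
    simp only [w]
    split_ifs <;> omega
  have hd : ∀ c x, O c x x = 0 := by
    intro c x
    have h5 := o1 x x
    have h6 : w x x = 0 := by simp [w]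
    have h7 := p3' x x
    fin_cases c
    · show O 0 x x = 0; omega
    · show O 1 x x = 0; omega
  obtain ⟨σ, s1, s2⟩ := perm_of (O 0) (t 0) (p1 0) (p2 0) (ht 0) (hd 0)
  obtain ⟨τ, t1, t2⟩ := perm_of (O 1) (t 1) (p1 1) (p2 1) (ht 1) (hd 1)
  have hadj : ∀ x y, G.Adj x y ↔ w x y = 1 := by
    intro x y
    simp only [w]
    split_ifs with h <;> simp [h]
  refine ⟨σ, τ, ?_, ?_, ?_, ?_, ?_⟩
  · intro u v
    by_cases huv : u = v
    · subst huv; simp
    · rw [hadj, s1 u v huv, s1 v u (Ne.symm huv), t1 u v huv, t1 v u (Ne.symm huv)]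
      have h5 := o1 u v
      have h6 := p3' u v
      have h7 := p3' v u
      have h8 := hw u v
      constructor
      · intro h
        refine ⟨huv, ?_⟩
        omega
      · rintro ⟨_, h⟩
        omega
  · intro u v huv h h'
    rw [s1 u v huv, s1 v u (Ne.symm huv)] at h
    rw [t1 u v huv, t1 v u (Ne.symm huv)] at h'
    have h5 := o1 u v
    have h6 := p3' u v
    have h7 := p3' v u
    have h8 := hw u v
    omega
  · intro v h h'
    have e1 := (s1 v (σ v) (Ne.symm h)).1 rfl
    have e2 := (s1 (σ v) v h).1 h'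
    have h5 := o1 v (σ v)
    have h6 := p3' v (σ v)
    have h7 := p3' (σ v) v
    have h8 := hw v (σ v)
    omega
  · intro v h h'
    have e1 := (t1 v (τ v) (Ne.symm h)).1 rfl
    have e2 := (t1 (τ v) v h).1 h'
    have h5 := o1 v (τ v)
    have h6 := p3' v (τ v)
    have h7 := p3' (τ v) v
    have h8 := hw v (τ v)
    omega
  · intro v hv
    have h5 := p4 0 v
    have h6 := p4 1 v
    rw [hv] at h5 h6
    exact ⟨s2 v (by omega), t2 v (by omega)⟩

end Pool.Agent.U466.OC
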