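import Pool.Agent.U466.OC.A2

set_option autoImplicit false

/-!
Path odd-covers, part 4: the cycles of a permutation, cut at a transversal.
-/

namespace Pool.Agent.U466.OC

open SimpleGraph Classical

theorem acyc_of_rank {V : Type*} {H : SimpleGraph V} (h : V → ℕ) (par : V → V)
    (hH : ∀ a b, H.Adj a b → (b = par a ∧ h b < h a) ∨ (a = par b ∧ h a < h b)) :
    H.IsAcyclic := by
  intro v c hc
  obtain ⟨m, hm, hmax⟩ := Finset.exists_max_image c.support.toFinset h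
    ⟨v, by simp⟩
  rw [List.mem_toFinset] at hm
  have hc' := hc.rotate hm
  have hsup : ∀ y, y ∈ (c.rotate m hm).support → h y ≤ h m := by
    intro y hy
    apply hmax
    rw [List.mem_toFinset]
    exact (Walk.mem_support_rotate_iff _ _ _).1 hy
  have hn : ¬ (c.rotate m hm).Nil := hc'.not_nil
  have h1 := (c.rotate m hm).adj_snd hn
  have h2 := (c.rotate m hm).adj_penultimate hn
  have k1 := hsup _ (List.mem_of_mem_tail (Walk.snd_mem_tail_support hn))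
  have k2 : h (c.rotate m hm).penultimate ≤ h m := hsup _ (Walk.getVert_mem_support _ _)
  have e1 : (c.rotate m hm).snd = par m := by
    rcases hH _ _ h1 with h | h
    · exact h.1
    · omega
  have e2 : (c.rotate m hm).penultimate = par m := by
    rcases hH _ _ h2 with h | h
    · omega
    · exact h.1
  exact hc'.snd_ne_penultimate (e1.trans e2.symm)

variable {V : Type} [Fintype V]

/-- Selection of at most one element of every nontrivial cycle. -/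
def Sel (σ : Equiv.Perm V) (R : Finset V) : Prop :=
  (∀ r ∈ R, σ r ≠ r) ∧ ∀ r ∈ R, ∀ r' ∈ R, σ.SameCycle r r' → r = r'

/-- The cycles of `σ` without the edges `r, σ r`, `r ∈ R`. -/
def Cy (σ : Equiv.Perm V) (R : Finset V) : SimpleGraph V where
  Adj u v := u ≠ v ∧ ((σ u = v ∧ u ∉ R) ∨ (σ v = u ∧ v ∉ R))
  symm := ⟨fun _ _ h => ⟨h.1.symm, h.2.symm⟩⟩
  loopless := ⟨fun _ h => h.1 rfl⟩

/-- The vertices of the edges `r, σ r`. -/
noncomputable def Tc (σ : Equiv.Perm V) (R : Finset V) : Finset V := R ∪ R.image σ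

theorem mem_Tc {σ : Equiv.Perm V} {R : Finset V} {x : V} :
    x ∈ Tc σ R ↔ x ∈ R ∨ ∃ r ∈ R, σ r = x := by
  unfold Tc
  rw [Finset.mem_union, Finset.mem_image]

theorem Sel.one {σ : Equiv.Perm V} {R : Finset V} (h : Sel σ R) {v a b : V}
    (ha : (σ v = a ∧ v ∈ R) ∨ (σ a = v ∧ a ∈ R)) (hb : (σ v = b ∧ v ∈ R) ∨ (σ b = v ∧ b ∈ R)) :
    a = b := by
  rcases ha with ⟨h1, h2⟩ | ⟨h1, h2⟩ <;> rcases hb with ⟨h3, h4⟩ | ⟨h3, h4⟩
  · exact h1.symm.trans h3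
  · exfalso
    have : b = v := h.2 b h4 v h2 ⟨1, by simpa using h3⟩
    subst this
    exact h.1 _ h2 h3
  · exfalso
    have : a = v := h.2 a h2 v h4 ⟨1, by simpa using h1⟩
    subst this
    exact h.1 _ h2 h1
  · exact σ.injective (h1.trans h3.symm)

theorem cy_lf {σ : Equiv.Perm V} {R : Finset V} (hc : ∀ x, σ x ≠ x → ∃ r ∈ R, σ.SameCycle r x) :
    LF (Cy σ R) := by
  have hex : ∀ x, σ x ≠ x → ∃ k : ℕ, (σ⁻¹ ^ (k + 1)) x ∈ R := by
    intro x hx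
    obtain ⟨r, hr, h⟩ := hc x hx
    obtain ⟨n, hn1, hn2, hn3⟩ := h.symm.inv.exists_pow_eq''
    refine ⟨n - 1, ?_⟩
    rw [Nat.sub_add_cancel hn1, hn3]
    exact hr
  let h : V → ℕ := fun x => if hx : ∃ k : ℕ, (σ⁻¹ ^ (k + 1)) x ∈ R then Nat.find hx else 0
  have key : ∀ u, σ u ≠ u → u ∉ R → h u < h (σ u) := by
    intro u hu huR
    have h1 := hex u hu
    have h2 : ∃ k : ℕ, (σ⁻¹ ^ (k + 1)) (σ u) ∈ R := hex (σ u) (fun h => hu (σ.injective h))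
    simp only [h, dif_pos h1, dif_pos h2]
    rw [Nat.find_lt_iff]
    have h3 := Nat.find_spec h2
    obtain ⟨n, hn⟩ : ∃ n, n = Nat.find h2 := ⟨_, rfl⟩
    rw [← hn] at h3
    cases n with
    | zero =>
      exfalso
      apply huR
      simpa using h3
    | succ n =>
      refine ⟨n, by omega, ?_⟩
      have : (σ⁻¹ ^ (n + 1 + 1)) (σ u) = (σ⁻¹ ^ (n + 1)) u := by
        rw [pow_succ _ (n + 1), Equiv.Perm.mul_apply]
        simp
      rw [← this]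
      exact h3
  refine ⟨acyc_of_rank h (fun x => σ⁻¹ x) ?_, ?_⟩
  · rintro a b ⟨hab, ⟨h1, h2⟩ | ⟨h1, h2⟩⟩
    · right
      subst h1
      exact ⟨by simp, key a (Ne.symm hab) h2⟩
    · left
      subst h1
      exact ⟨by simp, key b hab h2⟩
  · rintro v a b c ⟨_, ha⟩ ⟨_, hb⟩ ⟨_, hc⟩
    have e : ∀ a, ((σ v = a ∧ v ∉ R) ∨ (σ a = v ∧ a ∉ R)) → a = σ v ∨ a = σ⁻¹ v := by
      rintro a (⟨h, _⟩ | ⟨h, _⟩)
      · exact Or.inl h.symm
      · right; rw [← h]; simp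
    rcases e a ha with ha | ha <;> rcases e b hb with hb | hb <;> rcases e c hc with hc | hc <;>
      simp [ha, hb, hc]

theorem cy_leaf {σ : Equiv.Perm V} {R : Finset V} (hs : Sel σ R)
    (n2 : ∀ v, σ v ≠ v → σ (σ v) ≠ v) (v : V) : Lf (Cy σ R) v ↔ v ∈ Tc σ R := by
  rw [mem_Tc]
  constructor
  · rintro ⟨a, ⟨hva, ha⟩, hb⟩
    by_contra hcon
    push Not at hcon
    have hv : σ v ≠ v := by
      rcases ha with ⟨h, _⟩ | ⟨h, _⟩
      · rw [h]; exact hva.symm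
      · intro h'
        exact hva (σ.injective (h'.trans h.symm))
    have h1 : (Cy σ R).Adj v (σ v) := ⟨hv.symm, Or.inl ⟨rfl, hcon.1⟩⟩
    have h2 : (Cy σ R).Adj v (σ⁻¹ v) := by
      refine ⟨?_, Or.inr ⟨by simp, ?_⟩⟩
      · intro h
        apply hv
        conv_lhs => rw [h]
        simp
      · intro h
        exact hcon.2 _ h (by simp)
    have h3 := (hb _ h1).trans (hb _ h2).symm
    apply n2 v hv
    rw [h3]
    simp
  · rintro (hv | ⟨r, hr, rfl⟩)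
    · have hm := hs.1 v hv
      refine ⟨σ⁻¹ v, ⟨?_, Or.inr ⟨by simp, ?_⟩⟩, ?_⟩
      · intro h
        apply hm
        conv_lhs => rw [h]
        simp
      · intro h
        have := hs.2 _ h v hv ⟨1, by simp⟩
        apply hm
        conv_lhs => rw [← this]
        simp
      · rintro b ⟨hb, ⟨_, h2⟩ | ⟨h1, _⟩⟩
        · exact absurd hv h2
        · rw [← h1]; simp
    · have hm := hs.1 r hr
      have hnr : σ r ∉ R := fun h => hm (hs.2 r hr _ h ⟨1, by simp⟩).symm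
      refine ⟨σ (σ r), ⟨?_, Or.inl ⟨rfl, hnr⟩⟩, ?_⟩
      · intro h
        exact hm (σ.injective h).symm
      · rintro b ⟨hb, ⟨h1, _⟩ | ⟨h1, h2⟩⟩
        · exact h1.symm
        · exact absurd (σ.injective h1 ▸ hr) h2

/-- The graph of the removed edges. -/
def Mg (σ τ : Equiv.Perm V) (R S : Finset V) : SimpleGraph V where
  Adj u v := u ≠ v ∧ (((σ u = v ∧ u ∈ R) ∨ (σ v = u ∧ v ∈ R)) ∨
    ((τ u = v ∧ u ∈ S) ∨ (τ v = u ∧ v ∈ S)))
  symm := ⟨fun _ _ h => ⟨h.1.symm, h.2.imp Or.symm Or.symm⟩⟩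
  loopless := ⟨fun _ h => h.1 rfl⟩

theorem Mg_comm (σ τ : Equiv.Perm V) (R S : Finset V) : Mg σ τ R S = Mg τ σ S R := by
  ext u v
  show _ ∧ (_ ∨ _) ↔ _ ∧ (_ ∨ _)
  tauto

theorem Mg_insert {σ τ : Equiv.Perm V} {R S : Finset V} {r : V} (hr : σ r ≠ r) :
    Mg σ τ (insert r R) S = Mg σ τ R S ⊔ edge r (σ r) := by
  ext u v
  rw [sup_edge_adj hr.symm]
  show _ ∧ (_ ∨ _) ↔ (_ ∧ (_ ∨ _)) ∨ _
  simp only [Finset.mem_insert]
  constructor
  · rintro ⟨h0, ((⟨h1, h2 | h2⟩ | ⟨h1, h2 | h2⟩) | h1)⟩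
    · subst h2; subst h1; exact Or.inr (Or.inl ⟨rfl, rfl⟩)
    · exact Or.inl ⟨h0, Or.inl (Or.inl ⟨h1, h2⟩)⟩
    · subst h2; subst h1; exact Or.inr (Or.inr ⟨rfl, rfl⟩)
    · exact Or.inl ⟨h0, Or.inl (Or.inr ⟨h1, h2⟩)⟩
    · exact Or.inl ⟨h0, Or.inr h1⟩
  · rintro (⟨h0, ((⟨h1, h2⟩ | ⟨h1, h2⟩) | h1)⟩ | ⟨h1, h2⟩ | ⟨h1, h2⟩)
    · exact ⟨h0, Or.inl (Or.inl ⟨h1, Or.inr h2⟩)⟩
    · exact ⟨h0, Or.inl (Or.inr ⟨h1, Or.inr h2⟩)⟩
    · exact ⟨h0, Or.inr h1⟩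
    · subst h1; subst h2
      exact ⟨hr.symm, Or.inl (Or.inl ⟨rfl, Or.inl rfl⟩)⟩
    · subst h2; subst h1
      exact ⟨hr, Or.inl (Or.inr ⟨rfl, Or.inl rfl⟩)⟩

/-- Standing hypothesis: the two families of cycles have no common edge. -/
def Dj (σ τ : Equiv.Perm V) : Prop :=
  ∀ u v, u ≠ v → (σ u = v ∨ σ v = u) → (τ u = v ∨ τ v = u) → False

theorem Dj.symm {σ τ : Equiv.Perm V} (h : Dj σ τ) : Dj τ σ :=
  fun u v h0 h1 h2 => h u v h0 h2 h1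

theorem Mg_lf {σ τ : Equiv.Perm V} {R S : Finset V} (hR : Sel σ R) (hS : Sel τ S)
    (hac : (Mg σ τ R S).IsAcyclic) : LF (Mg σ τ R S) := by
  refine ⟨hac, ?_⟩
  rintro v a b c ⟨_, ha⟩ ⟨_, hb⟩ ⟨_, hc⟩
  rcases ha with ha | ha <;> rcases hb with hb | hb <;> rcases hc with hc | hc
  · exact Or.inl (hR.one ha hb)
  · exact Or.inl (hR.one ha hb)
  · exact Or.inr (Or.inl (hR.one ha hc))
  · exact Or.inr (Or.inr (hS.one hb hc))
  · exact Or.inr (Or.inr (hR.one hb hc))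
  · exact Or.inr (Or.inl (hS.one ha hc))
  · exact Or.inl (hS.one ha hb)
  · exact Or.inl (hS.one ha hb)

theorem nbr_iff {σ : Equiv.Perm V} {R : Finset V} {v : V} :
    v ∈ Tc σ R ↔ ∃ a, (σ v = a ∧ v ∈ R) ∨ (σ a = v ∧ a ∈ R) := by
  rw [mem_Tc]
  constructor
  · rintro (h | ⟨r, h1, h2⟩)
    · exact ⟨_, Or.inl ⟨rfl, h⟩⟩
    · exact ⟨r, Or.inr ⟨h2, h1⟩⟩
  · rintro ⟨a, ⟨_, h⟩ | ⟨h1, h2⟩⟩
    · exact Or.inl h
    · exact Or.inr ⟨a, h2, h1⟩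

theorem Sel.ne {σ : Equiv.Perm V} {R : Finset V} (h : Sel σ R) {v a : V}
    (ha : (σ v = a ∧ v ∈ R) ∨ (σ a = v ∧ a ∈ R)) : v ≠ a := by
  rintro rfl
  rcases ha with ⟨h1, h2⟩ | ⟨h1, h2⟩ <;> exact h.1 _ h2 h1

theorem Mg_leaf {σ τ : Equiv.Perm V} {R S : Finset V} (hR : Sel σ R) (hS : Sel τ S)
    (hd : Dj σ τ) (v : V) : Lf (Mg σ τ R S) v ↔ Xor (v ∈ Tc σ R) (v ∈ Tc τ S) := by
  constructor
  · rintro ⟨a, ⟨h0, h1⟩, h2⟩
    rcases h1 with h1 | h1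
    · left
      refine ⟨nbr_iff.2 ⟨a, h1⟩, fun h3 => ?_⟩
      obtain ⟨b, hb⟩ := nbr_iff.1 h3
      have := h2 b ⟨hS.ne hb, Or.inr hb⟩
      subst this
      exact hd v b h0 (h1.imp And.left And.left) (hb.imp And.left And.left)
    · right
      refine ⟨nbr_iff.2 ⟨a, h1⟩, fun h3 => ?_⟩
      obtain ⟨b, hb⟩ := nbr_iff.1 h3
      have := h2 b ⟨hR.ne hb, Or.inl hb⟩
      subst this
      exact hd v b h0 (hb.imp And.left And.left) (h1.imp And.left And.left)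
  · rintro (⟨h1, h2⟩ | ⟨h1, h2⟩)
    · obtain ⟨a, ha⟩ := nbr_iff.1 h1
      refine ⟨a, ⟨hR.ne ha, Or.inl ha⟩, ?_⟩
      rintro b ⟨_, hb | hb⟩
      · exact hR.one hb ha
      · exact absurd (nbr_iff.2 ⟨b, hb⟩) h2
    · obtain ⟨a, ha⟩ := nbr_iff.1 h1
      refine ⟨a, ⟨hS.ne ha, Or.inr ha⟩, ?_⟩
      rintro b ⟨_, hb | hb⟩
      · exact absurd (nbr_iff.2 ⟨b, hb⟩) h2
      · exact hS.one hb ha

end Pool.Agent.U466.OC
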