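import Pool.Agent.U466.OC.A4

set_option autoImplicit false

/-!
Path odd-covers, part 5: choosing the transversals.
-/

namespace Pool.Agent.U466.OC

open SimpleGraph Classical

variable {V : Type} [Fintype V]

theorem Mg_end {σ τ : Equiv.Perm V} {R S : Finset V} (hS : Sel τ S) {v : V}
    (hv : v ∉ Tc σ R) : End (Mg σ τ R S) v := by
  rintro a b ⟨_, ha⟩ ⟨_, hb⟩
  rcases ha with ha | ha
  · exact absurd (nbr_iff.2 ⟨a, ha⟩) hv
  · rcases hb with hb | hb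
    · exact absurd (nbr_iff.2 ⟨b, hb⟩) hv
    · exact hS.one ha hb

theorem Mg_iso {σ τ : Equiv.Perm V} {R S : Finset V} {v : V}
    (hv : v ∉ Tc σ R) (hv' : v ∉ Tc τ S) (a : V) : ¬ (Mg σ τ R S).Adj v a := by
  rintro ⟨_, ha⟩
  rcases ha with ha | ha
  · exact hv (nbr_iff.2 ⟨a, ha⟩)
  · exact hv' (nbr_iff.2 ⟨a, ha⟩)

theorem not_reach {H : SimpleGraph V} {v a : V} (hv : ∀ b, ¬ H.Adj v b) (hva : v ≠ a) :
    ¬ H.Reachable v a := by
  rintro ⟨p⟩
  cases p with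
  | nil => exact hva rfl
  | cons h _ => exact hv _ h

theorem add1 {σ τ : Equiv.Perm V} {R S : Finset V} (hac : (Mg σ τ R S).IsAcyclic) {r z : V}
    (hr : σ r ≠ r) (hz : z = r ∨ z = σ r) (h1 : z ∉ Tc σ R) (h2 : z ∉ Tc τ S) :
    (Mg σ τ (insert r R) S).IsAcyclic := by
  rw [Mg_insert hr]
  apply hac.sup_edge_of_not_reachable
  have := Mg_iso h1 h2
  rcases hz with rfl | rfl
  · exact not_reach this hr.symm
  · exact fun h => not_reach this hr h.symm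

theorem add2 {σ τ : Equiv.Perm V} {R S : Finset V} (hac : (Mg σ τ R S).IsAcyclic) {s z : V}
    (hr : τ s ≠ s) (hz : z = s ∨ z = τ s) (h1 : z ∉ Tc σ R) (h2 : z ∉ Tc τ S) :
    (Mg σ τ R (insert s S)).IsAcyclic := by
  rw [Mg_comm]
  rw [Mg_comm] at hac
  exact add1 hac hr hz h2 h1

theorem Tc_insert (σ : Equiv.Perm V) (R : Finset V) (r : V) :
    Tc σ (insert r R) = insert r (insert (σ r) (Tc σ R)) := by
  ext x
  simp only [mem_Tc, Finset.mem_insert]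
  constructor
  · rintro ((h | h) | ⟨y, (rfl | hy), h⟩)
    · exact Or.inl h
    · exact Or.inr (Or.inr (Or.inl h))
    · exact Or.inr (Or.inl h.symm)
    · exact Or.inr (Or.inr (Or.inr ⟨y, hy, h⟩))
  · rintro (h | h | h | ⟨y, hy, h⟩)
    · exact Or.inl (Or.inl h)
    · exact Or.inr ⟨r, Or.inl rfl, h.symm⟩
    · exact Or.inl (Or.inr h)
    · exact Or.inr ⟨y, Or.inr hy, h⟩

/-- Extension lemma. -/
theorem extend {σ τ : Equiv.Perm V} (n2 : ∀ v, σ v ≠ v → σ (σ v) ≠ v) {R S : Finset V}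
    (hR : Sel σ R) (hS : Sel τ S) (hac : (Mg σ τ R S).IsAcyclic) {x : V} (hx : σ x ≠ x)
    (hno : ∀ r ∈ R, ¬ σ.SameCycle r x) (hd : Dj σ τ) :
    (Mg σ τ (insert x R) S).IsAcyclic ∨ (Mg σ τ (insert (σ x) R) S).IsAcyclic := by
  have hx2 : σ (σ x) ≠ σ x := fun h => hx (σ.injective h)
  have hT : ∀ y, σ.SameCycle x y → y ∉ Tc σ R := by
    intro y hy hyT
    rw [mem_Tc] at hyT
    rcases hyT with h | ⟨r, hr, rfl⟩
    · exact hno y h hy.symm
    · exact hno r hr ((Equiv.Perm.sameCycle_apply_right.1 hy).symm)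
  have e0 := Mg_end (τ := τ) (S := S) hS (hT x (Equiv.Perm.SameCycle.refl _ _))
  have e1 := Mg_end (τ := τ) (S := S) hS (hT (σ x) ⟨1, by simp⟩)
  have e2 := Mg_end (τ := τ) (S := S) hS (hT (σ (σ x)) ⟨2, by simp [pow_two]⟩)
  by_cases h1 : (Mg σ τ R S).Reachable x (σ x)
  · by_cases h2 : (Mg σ τ R S).Reachable (σ x) (σ (σ x))
    · exact (three (Mg_lf hR hS hac) hx.symm (n2 x hx).symm hx2.symm e0 e1 e2 h1
        (h1.trans h2)).elim
    · right
      rw [Mg_insert hx2]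
      exact hac.sup_edge_of_not_reachable h2
  · left
    rw [Mg_insert hx]
    exact hac.sup_edge_of_not_reachable h1

theorem Sel.ins {σ : Equiv.Perm V} {R : Finset V} (hR : Sel σ R) {x : V} (hx : σ x ≠ x)
    (hno : ∀ r ∈ R, ¬ σ.SameCycle r x) : Sel σ (insert x R) := by
  refine ⟨?_, ?_⟩
  · intro r hr
    rcases Finset.mem_insert.1 hr with rfl | hr
    · exact hx
    · exact hR.1 r hr
  · intro r hr r' hr' h
    rcases Finset.mem_insert.1 hr with e1 | k1 <;> rcases Finset.mem_insert.1 hr' with e2 | k2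
    · exact e1.trans e2.symm
    · subst e1; exact absurd h.symm (hno _ k2)
    · subst e2; exact absurd h (hno _ k1)
    · exact hR.2 r k1 r' k2 h

theorem edge_reach {H : SimpleGraph V} {a b : V} (hH : ∀ x y, H.Adj x y → (x = a ∧ y = b) ∨
    (x = b ∧ y = a)) {x y : V} (p : H.Walk x y) : x = y ∨ (x = a ∧ y = b) ∨ (x = b ∧ y = a) := by
  induction p with
  | nil => exact Or.inl rfl
  | @cons x z y h p ih =>
    rcases hH x z h with ⟨rfl, rfl⟩ | ⟨rfl, rfl⟩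
    · rcases ih with h1 | ⟨h1, h2⟩ | ⟨h1, h2⟩
      · exact Or.inr (Or.inl ⟨rfl, h1.symm⟩)
      · exact absurd h1.symm h.ne
      · exact Or.inl h2.symm
    · rcases ih with h1 | ⟨h1, h2⟩ | ⟨h1, h2⟩
      · exact Or.inr (Or.inr ⟨rfl, h1.symm⟩)
      · exact Or.inl h2.symm
      · exact absurd h1 h.ne.symm

theorem Mg_empty (σ τ : Equiv.Perm V) : (Mg σ τ ∅ ∅).IsAcyclic := by
  have : Mg σ τ ∅ ∅ = ⊥ := by
    ext u v
    constructor
    · rintro ⟨_, h⟩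
      simp at h
    · intro h
      exact h.elim
  rw [this]
  exact isAcyclic_bot

theorem Tc_empty (σ : Equiv.Perm V) : Tc σ ∅ = ∅ := by
  simp [Tc]

theorem init {σ τ : Equiv.Perm V} (hd : Dj σ τ) {R0 S0 : Finset V} {a b : V}
    (hR0 : R0 = ∅ ∨ (σ a ≠ a ∧ R0 = {a})) (hS0 : S0 = ∅ ∨ (τ b ≠ b ∧ S0 = {b})) :
    (Mg σ τ R0 S0).IsAcyclic := by
  have h1 : σ a ≠ a → (Mg σ τ {a} ∅).IsAcyclic := fun h =>
    add1 (R := ∅) (Mg_empty σ τ) h (Or.inl rfl) (by simp [Tc_empty]) (by simp [Tc_empty])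
  have h2 : τ b ≠ b → (Mg σ τ ∅ {b}).IsAcyclic := fun h =>
    add2 (S := ∅) (Mg_empty σ τ) h (Or.inl rfl) (by simp [Tc_empty]) (by simp [Tc_empty])
  rcases hR0 with rfl | ⟨ha, rfl⟩ <;> rcases hS0 with rfl | ⟨hb, rfl⟩
  · exact Mg_empty σ τ
  · exact h2 hb
  · exact h1 ha
  · have e : ({b} : Finset V) = insert b ∅ := rfl
    rw [Mg_comm, e, Mg_insert hb]
    rw [Mg_comm]
    apply (h1 ha).sup_edge_of_not_reachable
    rintro ⟨p⟩
    have hq : ∀ x y, (Mg σ τ {a} ∅).Adj x y → (x = a ∧ y = σ a) ∨ (x = σ a ∧ y = a) := by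
      rintro x y ⟨_, (⟨k1, k2⟩ | ⟨k1, k2⟩) | ⟨_, k2⟩ | ⟨_, k2⟩⟩
      · rw [Finset.mem_singleton] at k2
        subst k2
        exact Or.inl ⟨rfl, k1.symm⟩
      · rw [Finset.mem_singleton] at k2
        subst k2
        exact Or.inr ⟨k1.symm, rfl⟩
      · exact absurd k2 (Finset.notMem_empty _)
      · exact absurd k2 (Finset.notMem_empty _)
    rcases edge_reach hq p with h | ⟨h, h'⟩ | ⟨h, h'⟩
    · exact hb h.symm
    · exact hd b (τ b) hb.symm (Or.inl (by rw [h', h])) (Or.inl rfl)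
    · exact hd b (τ b) hb.symm (Or.inr (by rw [h']; exact h.symm)) (Or.inl rfl)

end Pool.Agent.U466.OC
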