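import Pool.Agent.U466.OC.A5

set_option autoImplicit false

/-!
Path odd-covers, part 6: the transversals can be chosen with an odd intersection.
-/

namespace Pool.Agent.U466.OC

open SimpleGraph Classical

variable {V : Type} [Fintype V]

/-- The state before the last choice. -/
structure Pre (σ τ : Equiv.Perm V) (w : V) (R S : Finset V) : Prop where
  sR : Sel σ R
  sS : Sel τ S
  ac : (Mg σ τ R S).IsAcyclic
  oR : ∀ r ∈ R, ¬ σ.SameCycle r w
  oS : ∀ s ∈ S, ¬ τ.SameCycle s w

theorem core {σ τ : Equiv.Perm V} (hd : Dj σ τ) (n2 : ∀ v, σ v ≠ v → σ (σ v) ≠ v)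
    (m2 : ∀ v, τ v ≠ v → τ (τ v) ≠ v) {w : V} (hσ : σ w ≠ w) (hτ : τ w ≠ w) :
    ∃ R S, Pre σ τ w R S ∧ (∀ x, σ x ≠ x → ¬ σ.SameCycle x w → ∃ r ∈ R, σ.SameCycle r x) ∧
      (∀ x, τ x ≠ x → ¬ τ.SameCycle x w → ∃ r ∈ S, τ.SameCycle r x) ∧
      σ w ∉ Tc τ S ∧ τ w ∉ Tc σ R := by
  obtain ⟨R0, hR0, hR0'⟩ : ∃ R0 : Finset V, (R0 = ∅ ∨ (σ (σ (τ w)) ≠ σ (τ w) ∧ R0 = {σ (τ w)})) ∧
      ((∀ r ∈ R0, ¬ σ.SameCycle r w) ∧
        (σ (τ w) ≠ τ w → ¬ σ.SameCycle (τ w) w → σ (τ w) ∈ R0)) := by
    by_cases h : σ (τ w) ≠ τ w ∧ ¬ σ.SameCycle (τ w) w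
    · refine ⟨{σ (τ w)}, Or.inr ⟨fun h' => h.1 (σ.injective h'), rfl⟩, ?_, ?_⟩
      · intro r hr
        rw [Finset.mem_singleton] at hr
        subst hr
        intro h'
        exact h.2 (Equiv.Perm.sameCycle_apply_left.1 h')
      · intro _ _
        exact Finset.mem_singleton_self _
    · refine ⟨∅, Or.inl rfl, ?_, ?_⟩
      · intro r hr
        exact absurd hr (Finset.notMem_empty _)
      · intro h1 h2
        exact absurd ⟨h1, h2⟩ h
  obtain ⟨S0, hS0, hS0'⟩ : ∃ S0 : Finset V, (S0 = ∅ ∨ (τ (τ (σ w)) ≠ τ (σ w) ∧ S0 = {τ (σ w)})) ∧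
      ((∀ r ∈ S0, ¬ τ.SameCycle r w) ∧
        (τ (σ w) ≠ σ w → ¬ τ.SameCycle (σ w) w → τ (σ w) ∈ S0)) := by
    by_cases h : τ (σ w) ≠ σ w ∧ ¬ τ.SameCycle (σ w) w
    · refine ⟨{τ (σ w)}, Or.inr ⟨fun h' => h.1 (τ.injective h'), rfl⟩, ?_, ?_⟩
      · intro r hr
        rw [Finset.mem_singleton] at hr
        subst hr
        intro h'
        exact h.2 (Equiv.Perm.sameCycle_apply_left.1 h')
      · intro _ _
        exact Finset.mem_singleton_self _
    · refine ⟨∅, Or.inl rfl, ?_, ?_⟩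
      · intro r hr
        exact absurd hr (Finset.notMem_empty _)
      · intro h1 h2
        exact absurd ⟨h1, h2⟩ h
  have hpre0 : Pre σ τ w R0 S0 := by
    refine ⟨?_, ?_, init hd hR0 hS0, hR0'.1, hS0'.1⟩
    · rcases hR0 with h | ⟨h, h'⟩
      · rw [h]
        exact ⟨by simp, by simp⟩
      · rw [h']
        refine ⟨by simpa using h, ?_⟩
        intro r hr r' hr' _
        rw [Finset.mem_singleton] at hr hr'
        rw [hr, hr']
    · rcases hS0 with h | ⟨h, h'⟩
      · rw [h]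
        exact ⟨by simp, by simp⟩
      · rw [h']
        refine ⟨by simpa using h, ?_⟩
        intro r hr r' hr' _
        rw [Finset.mem_singleton] at hr hr'
        rw [hr, hr']
  obtain ⟨⟨R, S⟩, hm, hmax⟩ := Finset.exists_max_image
    (Finset.univ.filter (fun q : Finset V × Finset V => Pre σ τ w q.1 q.2 ∧ R0 ⊆ q.1 ∧ S0 ⊆ q.2))
    (fun q => q.1.card + q.2.card) ⟨(R0, S0), by simp [hpre0]⟩
  simp only [Finset.mem_filter, Finset.mem_univ, true_and] at hm hmax
  obtain ⟨hp, hR0R, hS0S⟩ := hm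
  refine ⟨R, S, hp, ?_, ?_, ?_, ?_⟩
  · intro x hx hxw
    by_contra hcon
    push Not at hcon
    have key : ∀ y, σ.SameCycle y x → (Mg σ τ (insert y R) S).IsAcyclic → False := by
      intro y hy hac
      have hyR : y ∉ R := fun h => hcon y h hy
      have hyy : σ y ≠ y := by
        intro h
        have := (hy.symm.apply_eq_self_iff).2 h
        exact hx this
      have := hmax (insert y R, S) ⟨⟨hp.sR.ins hyy (fun r hr h => hcon r hr (h.trans hy)), hp.sS,
        hac, ?_, hp.oS⟩, hR0R.trans (Finset.subset_insert _ _), hS0S⟩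
      · simp only [Finset.card_insert_of_notMem hyR] at this
        omega
      · intro r hr
        rcases Finset.mem_insert.1 hr with rfl | hr
        · exact fun h => hxw (hy.symm.trans h)
        · exact hp.oR r hr
    rcases extend n2 hp.sR hp.sS hp.ac hx hcon hd with h | h
    · exact key x (Equiv.Perm.SameCycle.refl _ _) h
    · exact key (σ x) (Equiv.Perm.sameCycle_apply_left.2 (Equiv.Perm.SameCycle.refl _ _)) h
  · intro x hx hxw
    by_contra hcon
    push Not at hcon
    have key : ∀ y, τ.SameCycle y x → (Mg τ σ (insert y S) R).IsAcyclic → False := by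
      intro y hy hac
      rw [Mg_comm] at hac
      have hyR : y ∉ S := fun h => hcon y h hy
      have hyy : τ y ≠ y := by
        intro h
        have := (hy.symm.apply_eq_self_iff).2 h
        exact hx this
      have := hmax (R, insert y S) ⟨⟨hp.sR, hp.sS.ins hyy (fun r hr h => hcon r hr (h.trans hy)),
        hac, hp.oR, ?_⟩, hR0R, hS0S.trans (Finset.subset_insert _ _)⟩
      · simp only [Finset.card_insert_of_notMem hyR] at this
        omega
      · intro r hr
        rcases Finset.mem_insert.1 hr with rfl | hr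
        · exact fun h => hxw (hy.symm.trans h)
        · exact hp.oS r hr
    rcases extend m2 hp.sS hp.sR (by rw [Mg_comm]; exact hp.ac) hx hcon hd.symm with h | h
    · exact key x (Equiv.Perm.SameCycle.refl _ _) h
    · exact key (τ x) (Equiv.Perm.sameCycle_apply_left.2 (Equiv.Perm.SameCycle.refl _ _)) h
  · intro h
    by_cases h1 : τ (σ w) = σ w
    · rcases mem_Tc.1 h with h2 | ⟨r, h2, h3⟩
      · exact hp.sS.1 _ h2 h1
      · have : r = σ w := τ.injective (h3.trans h1.symm)
        subst this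
        exact hp.sS.1 _ h2 h1
    · by_cases h4 : τ.SameCycle (σ w) w
      · rcases mem_Tc.1 h with h2 | ⟨r, h2, h3⟩
        · exact hp.oS _ h2 h4
        · rw [← h3] at h4
          exact hp.oS _ h2 (Equiv.Perm.sameCycle_apply_left.1 h4)
      · have h5 := hS0S (hS0'.2 h1 h4)
        rcases mem_Tc.1 h with h2 | ⟨r, h2, h3⟩
        · exact h1 (hp.sS.2 _ h2 _ h5 ⟨1, by simp⟩).symm
        · have := hp.sS.2 r h2 _ h5 ⟨2, by simp [pow_two, h3]⟩
          rw [this] at h3
          exact m2 _ h1 h3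
  · intro h
    by_cases h1 : σ (τ w) = τ w
    · rcases mem_Tc.1 h with h2 | ⟨r, h2, h3⟩
      · exact hp.sR.1 _ h2 h1
      · have : r = τ w := σ.injective (h3.trans h1.symm)
        subst this
        exact hp.sR.1 _ h2 h1
    · by_cases h4 : σ.SameCycle (τ w) w
      · rcases mem_Tc.1 h with h2 | ⟨r, h2, h3⟩
        · exact hp.oR _ h2 h4
        · rw [← h3] at h4
          exact hp.oR _ h2 (Equiv.Perm.sameCycle_apply_left.1 h4)
      · have h5 := hR0R (hR0'.2 h1 h4)
        rcases mem_Tc.1 h with h2 | ⟨r, h2, h3⟩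
        · exact h1 (hp.sR.2 _ h2 _ h5 ⟨1, by simp⟩).symm
        · have := hp.sR.2 r h2 _ h5 ⟨2, by simp [pow_two, h3]⟩
          rw [this] at h3
          exact n2 _ h1 h3

theorem count {X Y : Finset V} {r r' s s' : V} (hr : r ∉ X) (hr' : r' ∉ X) (hs : s ∉ Y)
    (hs' : s' ∉ Y) (h1 : r ≠ r') (h2 : s ≠ s') :
    ((insert r (insert r' X)) ∩ (insert s (insert s' Y))).card =
      (X ∩ Y).card + (if s ∈ X then 1 else 0) + (if s' ∈ X then 1 else 0) +
      (if (r ∈ Y ∨ r = s ∨ r = s') then 1 else 0) +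
      (if (r' ∈ Y ∨ r' = s ∨ r' = s') then 1 else 0) := by
  have e1 : X ∩ (insert s (insert s' Y)) = (X ∩ Y) ∪ ((if s ∈ X then {s} else ∅) ∪
      (if s' ∈ X then {s'} else ∅)) := by
    ext x
    simp only [Finset.mem_inter, Finset.mem_insert, Finset.mem_union]
    constructor
    · rintro ⟨hx, rfl | rfl | hy⟩
      · right; left; simp [hx]
      · right; right; simp [hx]
      · exact Or.inl ⟨hx, hy⟩
    · rintro (⟨hx, hy⟩ | h | h)
      · exact ⟨hx, Or.inr (Or.inr hy)⟩
      · split_ifs at h with hh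
        · rw [Finset.mem_singleton] at h
          subst h
          exact ⟨hh, Or.inl rfl⟩
        · exact absurd h (Finset.notMem_empty _)
      · split_ifs at h with hh
        · rw [Finset.mem_singleton] at h
          subst h
          exact ⟨hh, Or.inr (Or.inl rfl)⟩
        · exact absurd h (Finset.notMem_empty _)
  have c1 : (X ∩ (insert s (insert s' Y))).card = (X ∩ Y).card + (if s ∈ X then 1 else 0) +
      (if s' ∈ X then 1 else 0) := by
    rw [e1, Finset.card_union_of_disjoint, Finset.card_union_of_disjoint]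
    · by_cases k1 : s ∈ X <;> by_cases k2 : s' ∈ X <;> simp [k1, k2]
    · by_cases k1 : s ∈ X <;> by_cases k2 : s' ∈ X <;> simp [k1, k2, h2]
    · by_cases k1 : s ∈ X <;> by_cases k2 : s' ∈ X <;> simp [k1, k2, hs, hs']
  have c2 : ∀ (r : V) (Z W : Finset V), r ∉ Z → ((insert r Z) ∩ W).card =
      (Z ∩ W).card + (if r ∈ W then 1 else 0) := by
    intro r Z W h
    by_cases hW : r ∈ W
    · rw [Finset.insert_inter_of_mem hW, Finset.card_insert_of_notMem (by simp [h])]
      simp [hW]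
    · rw [Finset.insert_inter_of_notMem hW]
      simp [hW]
  rw [c2 r _ _ (by simp [hr, h1]), c2 r' _ _ hr', c1]
  simp only [Finset.mem_insert]
  have e3 : ∀ z : V, (z = s ∨ z = s' ∨ z ∈ Y) ↔ (z ∈ Y ∨ z = s ∨ z = s') := by
    intro z; tauto
  simp only [e3]
  omega

end Pool.Agent.U466.OC
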