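import Pool.Agent.U466.OC.A3
import Pool.Agent.U466.OC.A6

set_option autoImplicit false

/-!
Path odd-covers, part 7: the last choice, and the assembly of the three linear forests.
-/

namespace Pool.Agent.U466.OC

open SimpleGraph Classical

variable {V : Type} [Fintype V]

/-- What is needed of the transversals. -/
structure Fin' (σ τ : Equiv.Perm V) (R S : Finset V) : Prop where
  sR : Sel σ R
  sS : Sel τ S
  ac : (Mg σ τ R S).IsAcyclic
  cR : ∀ x, σ x ≠ x → ∃ r ∈ R, σ.SameCycle r x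
  cS : ∀ x, τ x ≠ x → ∃ r ∈ S, τ.SameCycle r x
  od : Odd (Tc σ R ∩ Tc τ S).card

theorem choice {σ τ : Equiv.Perm V} (hd : Dj σ τ) (n2 : ∀ v, σ v ≠ v → σ (σ v) ≠ v)
    (m2 : ∀ v, τ v ≠ v → τ (τ v) ≠ v) {w : V} (hσ : σ w ≠ w) (hτ : τ w ≠ w) :
    ∃ R S, Fin' σ τ R S := by
  obtain ⟨R, S, hp, cR, cS, ap, bp'⟩ := core hd n2 m2 hσ hτ
  obtain ⟨q, hq⟩ : ∃ q, σ q = w := ⟨σ⁻¹ w, by simp⟩
  obtain ⟨q', hq'⟩ : ∃ q', τ q' = w := ⟨τ⁻¹ w, by simp⟩
  obtain ⟨p, hpe⟩ : ∃ p, p = σ w := ⟨_, rfl⟩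
  obtain ⟨p', hpe'⟩ : ∃ p', p' = τ w := ⟨_, rfl⟩
  obtain ⟨v2, hv2⟩ : ∃ v2, v2 = σ p := ⟨_, rfl⟩
  obtain ⟨u2, hu2⟩ : ∃ u2, u2 = τ p' := ⟨_, rfl⟩
  rw [← hpe] at ap
  rw [← hpe'] at bp'
  -- membership in the cycles of `w`
  have sq : σ.SameCycle q w := ⟨1, by simpa using hq⟩
  have sp : σ.SameCycle p w := by
    rw [hpe]; exact Equiv.Perm.sameCycle_apply_left.2 (Equiv.Perm.SameCycle.refl _ _)
  have sv : σ.SameCycle v2 w := by
    rw [hv2]; exact Equiv.Perm.sameCycle_apply_left.2 sp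
  have tq : τ.SameCycle q' w := ⟨1, by simpa using hq'⟩
  have tp : τ.SameCycle p' w := by
    rw [hpe']; exact Equiv.Perm.sameCycle_apply_left.2 (Equiv.Perm.SameCycle.refl _ _)
  have tu : τ.SameCycle u2 w := by
    rw [hu2]; exact Equiv.Perm.sameCycle_apply_left.2 tp
  have hX : ∀ y, σ.SameCycle y w → y ∉ Tc σ R := by
    intro y hy hyT
    rw [mem_Tc] at hyT
    rcases hyT with h | ⟨r, hr, rfl⟩
    · exact hp.oR y h hy
    · exact hp.oR r hr (Equiv.Perm.sameCycle_apply_left.1 hy)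
  have hY : ∀ y, τ.SameCycle y w → y ∉ Tc τ S := by
    intro y hy hyT
    rw [mem_Tc] at hyT
    rcases hyT with h | ⟨r, hr, rfl⟩
    · exact hp.oS y h hy
    · exact hp.oS r hr (Equiv.Perm.sameCycle_apply_left.1 hy)
  have bw := hX w (Equiv.Perm.SameCycle.refl _ _)
  have aw := hY w (Equiv.Perm.SameCycle.refl _ _)
  have bp := hX p sp
  have bq := hX q sq
  have bv := hX v2 sv
  have ap' := hY p' tp
  have aq' := hY q' tq
  have au := hY u2 tu
  -- the general completion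
  have fin : ∀ r s, σ.SameCycle r w → τ.SameCycle s w → σ r ≠ r → τ s ≠ s →
      (Mg σ τ (insert r R) (insert s S)).IsAcyclic →
      Odd ((Tc σ R ∩ Tc τ S).card + (if s ∈ Tc σ R then 1 else 0) +
        (if τ s ∈ Tc σ R then 1 else 0) +
        (if (r ∈ Tc τ S ∨ r = s ∨ r = τ s) then 1 else 0) +
        (if (σ r ∈ Tc τ S ∨ σ r = s ∨ σ r = τ s) then 1 else 0)) →
      ∃ R S, Fin' σ τ R S := by
    intro r s hr hs hr2 hs2 hac hodd
    refine ⟨insert r R, insert s S, ⟨hp.sR.ins hr2 (fun x hx h => hp.oR x hx (h.trans hr)),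
      hp.sS.ins hs2 (fun x hx h => hp.oS x hx (h.trans hs)), hac, ?_, ?_, ?_⟩⟩
    · intro x hx
      by_cases h : σ.SameCycle x w
      · exact ⟨r, Finset.mem_insert_self _ _, hr.trans h.symm⟩
      · obtain ⟨y, hy, h'⟩ := cR x hx h
        exact ⟨y, Finset.mem_insert_of_mem hy, h'⟩
    · intro x hx
      by_cases h : τ.SameCycle x w
      · exact ⟨s, Finset.mem_insert_self _ _, hs.trans h.symm⟩
      · obtain ⟨y, hy, h'⟩ := cS x hx h
        exact ⟨y, Finset.mem_insert_of_mem hy, h'⟩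
    · rw [Tc_insert, Tc_insert, count (hX r hr) (hX _ (Equiv.Perm.sameCycle_apply_left.2 hr))
        (hY s hs) (hY _ (Equiv.Perm.sameCycle_apply_left.2 hs)) hr2.symm hs2.symm]
      exact hodd
  -- basic inequalities
  have epw : p ≠ w := by rw [hpe]; exact hσ
  have ep'w : p' ≠ w := by rw [hpe']; exact hτ
  have eqw : q ≠ w := by
    intro h; apply hσ; rw [h] at hq; exact hq
  have eq'w : q' ≠ w := by
    intro h; apply hτ; rw [h] at hq'; exact hq'
  have ev2w : v2 ≠ w := by rw [hv2, hpe]; exact n2 w hσ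
  have eu2w : u2 ≠ w := by rw [hu2, hpe']; exact m2 w hτ
  have epv : v2 ≠ p := by
    rw [hv2]
    intro h
    rw [hpe] at h
    exact hσ (σ.injective h)
  have ep'u : u2 ≠ p' := by
    rw [hu2]
    intro h
    rw [hpe'] at h
    exact hτ (τ.injective h)
  have epp' : p ≠ p' := by
    intro h
    exact hd w p epw.symm (Or.inl hpe.symm) (Or.inl (hpe'.symm.trans h.symm))
  have epq' : p ≠ q' := by
    intro h
    exact hd w p epw.symm (Or.inl hpe.symm) (Or.inr (by rw [h]; exact hq'))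
  have eqp' : q ≠ p' := by
    intro h
    exact hd w q eqw.symm (Or.inr hq) (Or.inl (hpe'.symm.trans h.symm))
  have σw : σ w = p := hpe.symm
  have τw : τ w = p' := hpe'.symm
  have σp : σ p = v2 := hv2.symm
  have τp' : τ p' = u2 := hu2.symm
  have σq_ne : σ q ≠ q := by rw [hq]; exact eqw.symm
  have τq'_ne : τ q' ≠ q' := by rw [hq']; exact eq'w.symm
  have σp_ne : σ p ≠ p := by rw [σp]; exact epv
  have τp'_ne : τ p' ≠ p' := by rw [τp']; exact ep'u
  have swr := Equiv.Perm.SameCycle.refl σ w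
  have twr := Equiv.Perm.SameCycle.refl τ w
  have acw : (Mg σ τ (insert w R) S).IsAcyclic := add1 hp.ac hσ (Or.inl rfl) bw aw
  have acq : (Mg σ τ (insert q R) S).IsAcyclic := add1 hp.ac σq_ne (Or.inr hq.symm) bw aw
  have acw' : (Mg σ τ R (insert w S)).IsAcyclic := add2 hp.ac hτ (Or.inl rfl) bw aw
  have acq' : (Mg σ τ R (insert q' S)).IsAcyclic := add2 hp.ac τq'_ne (Or.inr hq'.symm) bw aw
  have p'w : p' ∉ Tc σ (insert w R) := by
    rw [Tc_insert, σw]
    simp [ep'w, epp'.symm, bp']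
  have p'q : p' ∉ Tc σ (insert q R) := by
    rw [Tc_insert, hq]
    simp [ep'w, eqp'.symm, bp']
  have pw' : p ∉ Tc τ (insert w S) := by
    rw [Tc_insert, τw]
    simp [epw, epp', ap]
  have pq' : p ∉ Tc τ (insert q' S) := by
    rw [Tc_insert, hq']
    simp [epw, epq', ap]
  by_cases n0 : Odd (Tc σ R ∩ Tc τ S).card
  swap
  · -- (w, w)
    refine fin w w swr twr hσ hτ (add2 acw hτ (Or.inr τw.symm) p'w ap') ?_
    rw [σw, τw, if_neg bw, if_neg bp', if_pos (Or.inr (Or.inl rfl)),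
      if_neg (by rintro (h | h | h); exacts [ap h, epw h, epp' h])]
    rw [Nat.odd_iff] at n0 ⊢
    omega
  by_cases aq : q ∈ Tc τ S
  · -- (q, w)
    refine fin q w sq twr σq_ne hτ (add2 acq hτ (Or.inr τw.symm) p'q ap') ?_
    rw [hq, τw, if_neg bw, if_neg bp', if_pos (Or.inl aq), if_pos (Or.inr (Or.inl rfl))]
    rw [Nat.odd_iff] at n0 ⊢
    omega
  by_cases bq' : q' ∈ Tc σ R
  · -- (w, q')
    refine fin w q' swr tq hσ τq'_ne (add1 acq' hσ (Or.inr σw.symm) bp pq') ?_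
    rw [σw, hq', if_pos bq', if_neg bw, if_pos (Or.inr (Or.inr rfl)),
      if_neg (by rintro (h | h | h); exacts [ap h, epq' h, epw h])]
    rw [Nat.odd_iff] at n0 ⊢
    omega
  by_cases hup : u2 = p
  · -- (q, p')
    refine fin q p' sq tp σq_ne τp'_ne (add2 acq τp'_ne (Or.inl rfl) p'q ap') ?_
    have eqp : q ≠ p := by
      intro h
      rw [h, σp] at hq
      exact ev2w hq
    rw [hq, τp', hup, if_neg bp', if_neg bp,
      if_neg (by rintro (h | h | h); exacts [aq h, eqp' h, eqp h]),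
      if_neg (by rintro (h | h | h); exacts [aw h, ep'w h.symm, epw h.symm])]
    rw [Nat.odd_iff] at n0 ⊢
    omega
  by_cases bu : u2 ∈ Tc σ R
  swap
  · -- (w, p')
    refine fin w p' swr tp hσ τp'_ne (add2 acw τp'_ne (Or.inl rfl) p'w ap') ?_
    rw [σw, τp', if_neg bp', if_neg bu,
      if_neg (by rintro (h | h | h); exacts [aw h, ep'w h.symm, eu2w h.symm]),
      if_neg (by rintro (h | h | h); exacts [ap h, epp' h, hup h.symm])]
    rw [Nat.odd_iff] at n0 ⊢
    omega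
  by_cases hvp : v2 = p'
  · -- (p, q')
    refine fin p q' sp tq σp_ne τq'_ne (add1 acq' σp_ne (Or.inl rfl) bp pq') ?_
    have ep'q' : p' ≠ q' := by
      intro h
      rw [← h, τp'] at hq'
      exact eu2w hq'
    rw [σp, hq', hvp, if_neg bq', if_neg bw,
      if_neg (by rintro (h | h | h); exacts [ap h, epq' h, epw h]),
      if_neg (by rintro (h | h | h); exacts [ap' h, ep'q' h, ep'w h])]
    rw [Nat.odd_iff] at n0 ⊢
    omega
  by_cases av : v2 ∈ Tc τ S
  swap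
  · -- (p, w)
    refine fin p w sp twr σp_ne hτ (add1 acw' σp_ne (Or.inl rfl) bp pw') ?_
    rw [σp, τw, if_neg bw, if_neg bp',
      if_neg (by rintro (h | h | h); exacts [ap h, epw h, epp' h]),
      if_neg (by rintro (h | h | h); exacts [av h, ev2w h, hvp h])]
    rw [Nat.odd_iff] at n0 ⊢
    omega
  · -- (p, p')
    have acp : (Mg σ τ (insert p R) S).IsAcyclic := add1 hp.ac σp_ne (Or.inl rfl) bp ap
    have p'p : p' ∉ Tc σ (insert p R) := by
      rw [Tc_insert, σp]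
      simp [epp'.symm, Ne.symm hvp, bp']
    refine fin p p' sp tp σp_ne τp'_ne (add2 acp τp'_ne (Or.inl rfl) p'p ap') ?_
    rw [σp, τp', if_neg bp', if_pos bu,
      if_neg (by rintro (h | h | h); exacts [ap h, epp' h, hup h.symm]),
      if_pos (Or.inl av)]
    rw [Nat.odd_iff] at n0 ⊢
    omega

theorem Tc_even {σ : Equiv.Perm V} {R : Finset V} (h : Sel σ R) : Even (Tc σ R).card := by
  unfold Tc
  rw [Finset.card_union_of_disjoint, Finset.card_image_of_injective _ σ.injective]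
  · exact ⟨_, rfl⟩
  · rw [Finset.disjoint_left]
    intro x hx hx'
    obtain ⟨r, hr, rfl⟩ := Finset.mem_image.1 hx'
    exact h.1 r hr (h.2 r hr _ hx ⟨1, by simp⟩).symm

/-- Three paths. -/
theorem three_paths (G : SimpleGraph V) (hev : ∀ v, Even (G.neighborSet v).ncard)
    (h4 : ∀ v, (G.neighborSet v).ncard ≤ 4) (hex : ∃ v, (G.neighborSet v).ncard = 4) :
    ∃ (u w : Fin 3 → V) (P : ∀ i, (⊤ : SimpleGraph V).Walk (u i) (w i)),
      (∀ i, u i ≠ w i) ∧ (∀ i, (P i).IsPath) ∧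
      ∀ e : Sym2 V, Odd (Finset.univ.filter (fun i => e ∈ (P i).edges)).card ↔ e ∈ G.edgeSet := by
  obtain ⟨σ, τ, hadj, hd, n2, m2, hmov⟩ := two_perm G hev h4
  obtain ⟨w, hw⟩ := hex
  obtain ⟨R, S, hF⟩ := choice (σ := σ) (τ := τ) hd n2 m2 (hmov w hw).1 (hmov w hw).2
  have lA := cy_leaf hF.sR n2
  have lB := cy_leaf hF.sS m2
  have lC := Mg_leaf hF.sR hF.sS hd
  have hst : St G (Cy σ R) (Cy τ S) (Mg σ τ R S) := by
    refine ⟨cy_lf hF.cR, cy_lf hF.cS, Mg_lf hF.sR hF.sS hF.ac, ?_, ?_⟩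
    · intro u v
      by_cases huv : u = v
      · subst huv
        simp [Xor]
      · have hd' := hd u v huv
        have a1 : ¬ (σ u = v ∧ σ v = u) := by
          rintro ⟨rfl, h2⟩
          exact n2 u (Ne.symm huv) h2
        have a2 : ¬ (τ u = v ∧ τ v = u) := by
          rintro ⟨rfl, h2⟩
          exact m2 u (Ne.symm huv) h2
        rw [hadj]
        show _ ↔ Xor (Xor (u ≠ v ∧ ((σ u = v ∧ u ∉ R) ∨ (σ v = u ∧ v ∉ R)))
          (u ≠ v ∧ ((τ u = v ∧ u ∉ S) ∨ (τ v = u ∧ v ∉ S))))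
          (u ≠ v ∧ (((σ u = v ∧ u ∈ R) ∨ (σ v = u ∧ v ∈ R)) ∨
            ((τ u = v ∧ u ∈ S) ∨ (τ v = u ∧ v ∈ S))))
        unfold Xor
        by_cases b1 : σ u = v <;> by_cases b2 : σ v = u <;> by_cases b3 : τ u = v <;>
          by_cases b4 : τ v = u <;> simp only [b1, b2, b3, b4] at hd' a1 a2 ⊢ <;>
          by_cases c1 : u ∈ R <;> by_cases c2 : v ∈ R <;> by_cases c3 : u ∈ S <;>
          by_cases c4 : v ∈ S <;> simp_all
    · intro v
      rw [lA, lB, lC]
  have cAB : cm (Cy σ R) (Cy τ S) = (Tc σ R ∩ Tc τ S).card := by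
    unfold cm
    congr 1
    ext x
    simp only [Finset.mem_filter, Finset.mem_univ, true_and, Finset.mem_inter, lA, lB]
  have cBC : cm (Cy τ S) (Mg σ τ R S) + (Tc σ R ∩ Tc τ S).card = (Tc τ S).card := by
    rw [← Finset.card_sdiff_add_card_inter (Tc τ S) (Tc σ R), Finset.inter_comm (Tc τ S)]
    congr 1
    unfold cm
    congr 1
    ext x
    simp only [Finset.mem_filter, Finset.mem_univ, true_and, Finset.mem_sdiff, lB, lC]
    unfold Xor
    tauto
  have cAC : cm (Cy σ R) (Mg σ τ R S) + (Tc σ R ∩ Tc τ S).card = (Tc σ R).card := by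
    rw [← Finset.card_sdiff_add_card_inter (Tc σ R) (Tc τ S)]
    congr 1
    unfold cm
    congr 1
    ext x
    simp only [Finset.mem_filter, Finset.mem_univ, true_and, Finset.mem_sdiff, lA, lC]
    unfold Xor
    tauto
  have o1 := hF.od
  have o2 := Tc_even hF.sR
  have o3 := Tc_even hF.sS
  rw [Nat.odd_iff] at o1
  rw [Nat.even_iff] at o2 o3
  obtain ⟨A', B', C', hst', k1, k2, k3⟩ := link_all _ hst le_rfl
    (by rw [cAB]; exact hF.od) (by rw [Nat.odd_iff]; omega) (by rw [Nat.odd_iff]; omega)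
  exact paths hst' k1 k2 k3

end Pool.Agent.U466.OC
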